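import Pool.Agent.Run7.h696.CA.Iface

/-!
# Project CA (helper696), piece JVIH (helper637): irreducibility of the product with the set of the characters

Adapted from `Run7/h882/HQ/JV.lean`.
-/

set_option autoImplicit false

open PowerSeries Matrix
open Pool.Agent.Y118.UL (Irr)
open Pool.Agent.Y916.Al
open Pool.Agent.Run7.h696.CP

namespace Pool.Agent.Run7.h637.CA

open Pool.Agent.Run7.h696.CA

section bounds

variable {m : ℕ} {a : Fin m → ℤ} {L : ℝ}

theorem norm_co_le (hb : ∀ (w : List (Option (Fin m))) (k : ℕ), |((co a w k : ℚ) : ℝ)| ≤ L ^ k)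
    (w : List (Option (Fin m))) (k : ℕ) : ‖((co a w k : ℚ) : ℂ)‖ ≤ L ^ k := by
  rw [← Complex.ofReal_ratCast, Complex.norm_real, Real.norm_eq_abs]
  exact hb w k

theorem cvc_hy (hL : 1 ≤ L) (hb : ∀ (w : List (Option (Fin m))) (k : ℕ), |((co a w k : ℚ) : ℝ)| ≤ L ^ k)
    (w : List (Option (Fin m))) {z : ℂ} (hz : ‖z‖ < 1 / L) : Cvc z (hy a w) := by
  have hL0 : 0 < L := by linarith
  refine Cvc.of_bound (A := 1) (B := L) hL0.le ?_ fun k => ?_
  · rw [lt_div_iff₀ hL0] at hz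
    linarith
  · rw [hy, coeff_mk, one_mul]
    exact norm_co_le hb w k

end bounds

/-! ### JVI -/

theorem exists_small_ne₁ (a : ℕ → ℂ) (A : ℝ) (ha : ∀ k, ‖a k‖ ≤ A) (hne : ∃ k, a k ≠ 0) :
    ∃ r : ℝ, 0 < r ∧ r < 1 ∧ ∀ z : ℂ, z ≠ 0 → ‖z‖ < r → ∑' k, a k * z ^ k ≠ 0 := by
  classical
  set m := Nat.find hne with hm
  have ham : a m ≠ 0 := Nat.find_spec hne
  have hlt : ∀ k < m, a k = 0 := fun k hk => not_not.1 (Nat.find_min hne hk)
  have hA : 0 ≤ A := (norm_nonneg _).trans (ha 0)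
  have hampos : 0 < ‖a m‖ := norm_pos_iff.2 ham
  refine ⟨min (1 / 2) (‖a m‖ / (2 * (A + 1))), lt_min (by norm_num) (by positivity),
    lt_of_le_of_lt (min_le_left _ _) (by norm_num), fun z hz hzr => ?_⟩
  have hz2 : ‖z‖ < 1 / 2 := lt_of_lt_of_le hzr (min_le_left _ _)
  have hz3 : ‖z‖ < ‖a m‖ / (2 * (A + 1)) := lt_of_lt_of_le hzr (min_le_right _ _)
  rw [lt_div_iff₀ (by positivity)] at hz3
  have hz0 : 0 ≤ ‖z‖ := norm_nonneg z
  have hgeo : Summable fun k : ℕ => A * ‖z‖ ^ k :=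
    (summable_geometric_of_lt_one hz0 (by linarith)).mul_left A
  have hsum : ∀ j : ℕ, Summable fun k : ℕ => a (k + j) * z ^ k := by
    intro j
    refine Summable.of_norm_bounded hgeo fun k => ?_
    rw [norm_mul, norm_pow]
    exact mul_le_mul_of_nonneg_right (ha _) (by positivity)
  have h1 : ∑' k, a k * z ^ k = z ^ m * ∑' k, a (k + m) * z ^ k := by
    have h2 := (Summable.sum_add_tsum_nat_add m (hsum 0))
    simp only [add_zero] at h2
    rw [← h2, Finset.sum_eq_zero fun i hi => by rw [hlt i (Finset.mem_range.1 hi), zero_mul], zero_add,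
      ← tsum_mul_left]
    refine tsum_congr fun k => ?_
    rw [pow_add]; ring
  have h3 : ∑' k, a (k + m) * z ^ k = a m + z * ∑' k, a (k + (m + 1)) * z ^ k := by
    rw [(hsum m).tsum_eq_zero_add, ← tsum_mul_left]
    congr 1
    · simp
    · refine tsum_congr fun k => ?_
      rw [pow_succ, show k + 1 + m = k + (m + 1) by ring]; ring
  have h4 : ‖∑' k, a (k + (m + 1)) * z ^ k‖ ≤ A * (1 - ‖z‖)⁻¹ := by
    refine tsum_of_norm_bounded ((hasSum_geometric_of_lt_one hz0 (by linarith)).mul_left A) fun k => ?_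
    rw [norm_mul, norm_pow]
    exact mul_le_mul_of_nonneg_right (ha _) (by positivity)
  rw [h1, h3]
  refine mul_ne_zero (pow_ne_zero _ hz) fun h5 => ?_
  have h6 : ‖a m‖ = ‖z * ∑' k, a (k + (m + 1)) * z ^ k‖ := by
    rw [eq_neg_of_add_eq_zero_left h5, norm_neg]
  rw [norm_mul] at h6
  have h7 : A * (1 - ‖z‖)⁻¹ ≤ A * 2 := by
    refine mul_le_mul_of_nonneg_left ?_ hA
    rw [inv_le_comm₀ (by linarith) (by norm_num)]
    linarith
  have h8 : ‖z‖ * ‖∑' k, a (k + (m + 1)) * z ^ k‖ ≤ ‖z‖ * (A * 2) :=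
    mul_le_mul_of_nonneg_left (h4.trans h7) hz0
  nlinarith

theorem exists_small_ne (b : ℕ → ℂ) (A L : ℝ) (hL : 1 ≤ L) (hb : ∀ k, ‖b k‖ ≤ A * L ^ k) (hne : ∃ k, b k ≠ 0) :
    ∃ r : ℝ, 0 < r ∧ r < 1 / L ∧ ∀ z : ℂ, z ≠ 0 → ‖z‖ < r → ∑' k, b k * z ^ k ≠ 0 := by
  have hL0 : 0 < L := by linarith
  have hLc : (L : ℂ) ≠ 0 := by exact_mod_cast hL0.ne'
  obtain ⟨r, h1, h2, h3⟩ := exists_small_ne₁ (fun k => b k / (L : ℂ) ^ k) A (fun k => by
    rw [norm_div, norm_pow, Complex.norm_real, Real.norm_eq_abs, abs_of_pos hL0, div_le_iff₀ (by positivity)]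
    exact hb k) (by
    obtain ⟨k, hk⟩ := hne
    exact ⟨k, div_ne_zero hk (pow_ne_zero _ hLc)⟩)
  refine ⟨r / L, by positivity, by gcongr, fun z hz hzr => ?_⟩
  have h4 := h3 (L * z) (mul_ne_zero hLc hz) (by
    rw [norm_mul, Complex.norm_real, Real.norm_eq_abs, abs_of_pos hL0]
    rw [lt_div_iff₀ hL0] at hzr
    linarith)
  intro h5
  apply h4
  rw [← h5]
  refine tsum_congr fun k => ?_
  rw [mul_pow]
  field_simp

theorem sum_vz {m : ℕ} {a : Fin m → ℤ} {L : ℝ} (hL : 1 ≤ L)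
    (hb : ∀ (w : List (Option (Fin m))) (k : ℕ), |((co a w k : ℚ) : ℝ)| ≤ L ^ k)
    (s : Finset (List (Option (Fin m)))) (c : List (Option (Fin m)) → ℂ) {z : ℂ} (hz : ‖z‖ < 1 / L) :
    ∑ w ∈ s, c w * vz z (hy a w) = ∑' k : ℕ, (∑ w ∈ s, c w * ((co a w k : ℚ) : ℂ)) * z ^ k := by
  have h1 : ∀ w, Summable fun k : ℕ => c w * (((co a w k : ℚ) : ℂ) * z ^ k) := by
    intro w
    have h2 := (cvc_hy hL hb w hz).summable
    simp only [hy, coeff_mk] at h2
    exact h2.mul_left (c w)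
  have h3 : ∀ w, c w * vz z (hy a w) = ∑' k : ℕ, c w * (((co a w k : ℚ) : ℂ) * z ^ k) := by
    intro w
    rw [tsum_mul_left]
    congr 1
    unfold vz evc
    refine tsum_congr fun k => ?_
    rw [hy, coeff_mk]
  rw [Finset.sum_congr rfl fun w _ => h3 w, ← Summable.tsum_finsetSum fun w _ => h1 w]
  refine tsum_congr fun k => ?_
  rw [Finset.sum_mul]
  refine Finset.sum_congr rfl fun w _ => ?_
  ring

theorem lin_ind (hW : S_INDH) (hLIN : S_LINH) {m : ℕ} (a : Fin m → ℤ) (h0 : ∀ h : Fin 0 → ℚ⟦X⟧, NoLogs a h)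
    (s : Finset (List (Option (Fin m)))) (hs : ∀ w ∈ s, Adm w) (c : List (Option (Fin m)) → ℂ)
    (u : List (Option (Fin m))) (hu : u ∈ s)
    (hcu : c u ≠ 0) : ∃ k, ∑ w ∈ s, c w * ((co a w k : ℚ) : ℂ) ≠ 0 := by
  classical
  by_contra hno
  push Not at hno
  apply hcu
  rw [← Module.forall_dual_apply_eq_zero_iff ℚ]
  intro φ
  set q : List (Option (Fin m)) →₀ MvPolynomial (Fin 0) (Polynomial ℚ) :=
    Finsupp.onFinset s (fun w => if w ∈ s then MvPolynomial.C (Polynomial.C (φ (c w))) else 0)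
      (fun w hw => by
        by_contra h
        exact hw (if_neg h)) with hq
  have hqs : q.support ⊆ s := Finsupp.support_onFinset_subset
  have hqw : ∀ w ∈ s, q w = MvPolynomial.C (Polynomial.C (φ (c w))) := by
    intro w hw
    rw [hq, Finsupp.onFinset_apply, if_pos hw]
  have hval : ∀ (h : Fin 0 → ℚ⟦X⟧) (b : ℚ),
      MvPolynomial.aeval h (MvPolynomial.C (Polynomial.C b) : MvPolynomial (Fin 0) (Polynomial ℚ)) =
        PowerSeries.C b := by
    intro h b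
    rw [MvPolynomial.aeval_C, PowerSeries.algebraMap_apply', Polynomial.coe_C]
    simp
  have key := hLIN hW m a 0 (fun i => i.elim0) 1 (fun i => i.elim0) one_ne_zero (fun i => i.elim0)
    (h0 _) q (fun w hw => hs w (hqs hw)) ?_ u
  · rw [hqw u hu, hval] at key
    have h1 := congrArg (coeff 0) key
    simpa using h1
  · rw [Finsupp.sum_of_support_subset q hqs _ (fun w _ => by rw [map_zero, zero_mul])]
    ext k
    rw [map_sum, map_zero]
    have h2 : ∀ w ∈ s, coeff k (MvPolynomial.aeval (fun i : Fin 0 => (i.elim0 : ℚ⟦X⟧)) (q w) * hy a w) =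
        φ (c w) * co a w k := by
      intro w hw
      rw [hqw w hw, hval, coeff_C_mul, hy, coeff_mk]
    rw [Finset.sum_congr rfl h2]
    have h3 := congrArg φ (hno k)
    rw [map_sum, map_zero] at h3
    rw [← h3]
    refine Finset.sum_congr rfl fun w _ => ?_
    have h4 : c w * ((co a w k : ℚ) : ℂ) = (co a w k) • c w := by
      rw [Rat.smul_def, mul_comm]
    rw [h4, map_smul, smul_eq_mul, mul_comm]

/-- **JVIH** -/
theorem p_JVIH : S_JVIH := by
  classical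
  intro hSH hVAL hLZ hW hLIN m a L hL haL h0 τ W T₀ hT₀ P Q hPQ
  have hL0 : 0 < L := by linarith
  obtain ⟨hb, hchr⟩ := hVAL hSH m a L hL haL
  by_contra hno
  push Not at hno
  obtain ⟨⟨p₁, ⟨hp₁, x₁, hx₁, hpx₁⟩, hP⟩, ⟨p₂, ⟨hp₂, x₂, hx₂, hpx₂⟩, hQ⟩⟩ := hno
  obtain ⟨qP, hAP, hqP⟩ := hLZ m τ ℂ W P
  obtain ⟨qQ, hAQ, hqQ⟩ := hLZ m τ ℂ W Q
  have hel : ∀ (p : τ ⊕ Wd m W → ℂ) (x : List (Option (Fin m)) → ℂ), (∀ w : Wd m W, p (Sum.inr w) = x w.1) →
      p = Sum.elim (fun i => p (Sum.inl i)) (fun w : Wd m W => x w.1) := by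
    intro p x hx
    funext j
    rcases j with i | w
    · rfl
    · exact hx w
  have hev : ∀ (R : MvPolynomial (τ ⊕ Wd m W) ℂ) (p : τ ⊕ Wd m W → ℂ),
      MvPolynomial.eval p R = MvPolynomial.eval₂ (RingHom.id ℂ) p R := fun R p => rfl
  have hev' : ∀ (R : MvPolynomial τ ℂ) (p : τ → ℂ),
      MvPolynomial.eval₂ (RingHom.id ℂ) p R = MvPolynomial.eval p R := fun R p => rfl
  -- nonzero coefficients
  have hco : ∀ (R : MvPolynomial (τ ⊕ Wd m W) ℂ) (q : List (Option (Fin m)) →₀ MvPolynomial τ ℂ)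
      (p : τ ⊕ Wd m W → ℂ) (x : List (Option (Fin m)) → ℂ), Chr x → (∀ w : Wd m W, p (Sum.inr w) = x w.1) →
      (∀ (B : Type) [CommRing B] (f : ℂ →+* B) (y : τ → B) (x : List (Option (Fin m)) → B), Chr x →
        MvPolynomial.eval₂ f (Sum.elim y fun w => x w.1) R =
          q.sum fun w p => MvPolynomial.eval₂ f y p * x w) → MvPolynomial.eval p R ≠ 0 →
      ∃ u ∈ q.support, MvPolynomial.eval (fun i => p (Sum.inl i)) (q u) ≠ 0 := by
    intro R q p x hx hpx hq hR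
    by_contra hall
    push Not at hall
    apply hR
    rw [hev, hel p x hpx, hq ℂ (RingHom.id ℂ) _ x hx]
    refine Finset.sum_eq_zero fun w hw => ?_
    show MvPolynomial.eval₂ (RingHom.id ℂ) (fun i => p (Sum.inl i)) (q w) * x w = 0
    rw [hev', hall w hw, zero_mul]
  obtain ⟨u, hu, hPu⟩ := hco P qP p₁ x₁ hx₁ hpx₁ hqP hP
  obtain ⟨v, hv, hQv⟩ := hco Q qQ p₂ x₂ hx₂ hpx₂ hqQ hQ
  -- one point of `T₀`
  obtain ⟨y, hyT, hyne⟩ : ∃ y ∈ T₀, MvPolynomial.eval y (qP u) * MvPolynomial.eval y (qQ v) ≠ 0 := by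
    by_contra hall
    push Not at hall
    rcases hT₀ (qP u) (qQ v) hall with h | h
    · exact hPu (h _ hp₁)
    · exact hQv (h _ hp₂)
  have hyP : MvPolynomial.eval y (qP u) ≠ 0 := left_ne_zero_of_mul hyne
  have hyQ : MvPolynomial.eval y (qQ v) ≠ 0 := right_ne_zero_of_mul hyne
  -- the two power series
  have hser : ∀ (q : List (Option (Fin m)) →₀ MvPolynomial τ ℂ) (u : List (Option (Fin m))), (∀ w ∈ q.support, Adm w) →
      u ∈ q.support → MvPolynomial.eval y (q u) ≠ 0 →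
      ∃ r : ℝ, 0 < r ∧ r < 1 / L ∧ ∀ z : ℂ, z ≠ 0 → ‖z‖ < r →
        ∑ w ∈ q.support, MvPolynomial.eval y (q w) * vz z (hy a w) ≠ 0 := by
    intro q u hA hu hne
    have hbd : ∀ k : ℕ, ‖∑ w ∈ q.support, MvPolynomial.eval y (q w) * ((co a w k : ℚ) : ℂ)‖ ≤
        (∑ w ∈ q.support, ‖MvPolynomial.eval y (q w)‖) * L ^ k := by
      intro k
      rw [Finset.sum_mul]
      refine (norm_sum_le _ _).trans (Finset.sum_le_sum fun w _ => ?_)
      rw [norm_mul]
      exact mul_le_mul_of_nonneg_left (norm_co_le hb w k) (norm_nonneg _)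
    obtain ⟨r, hr0, hr1, hr⟩ := exists_small_ne _ _ L hL hbd
      (lin_ind hW hLIN a h0 q.support hA (fun w => MvPolynomial.eval y (q w)) u hu hne)
    refine ⟨r, hr0, hr1, fun z hz hzr => ?_⟩
    rw [sum_vz hL hb q.support (fun w => MvPolynomial.eval y (q w)) (by linarith)]
    exact hr z hz hzr
  obtain ⟨r₁, hr₁0, hr₁1, hr₁⟩ := hser qP u hAP hu hyP
  obtain ⟨r₂, hr₂0, hr₂1, hr₂⟩ := hser qQ v hAQ hv hyQ
  set t : ℝ := min r₁ r₂ / 2 with ht
  have htpos : 0 < t := by have := lt_min hr₁0 hr₂0; positivity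
  have ht1 : t < r₁ := by
    have h1 := min_le_left r₁ r₂
    have h2 := lt_min hr₁0 hr₂0
    rw [ht]; linarith
  have ht2 : t < r₂ := by
    have h1 := min_le_right r₁ r₂
    have h2 := lt_min hr₁0 hr₂0
    rw [ht]; linarith
  have hz0 : (t : ℂ) ≠ 0 := by exact_mod_cast htpos.ne'
  have hzn : ‖(t : ℂ)‖ = t := by rw [Complex.norm_real, Real.norm_eq_abs, abs_of_pos htpos]
  have hch : Chr fun w => vz (t : ℂ) (hy a w) := hchr (t : ℂ) (by rw [hzn]; linarith)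
  have hmem := hPQ (Sum.elim y fun w : Wd m W => vz (t : ℂ) (hy a w.1))
    ⟨by simpa using hyT, fun w => vz (t : ℂ) (hy a w), hch, fun w => rfl⟩
  rw [hev, hev, hqP ℂ (RingHom.id ℂ) y _ hch, hqQ ℂ (RingHom.id ℂ) y _ hch] at hmem
  rcases mul_eq_zero.1 hmem with h | h
  · exact hr₁ (t : ℂ) hz0 (by rw [hzn]; exact ht1) h
  · exact hr₂ (t : ℂ) hz0 (by rw [hzn]; exact ht2) h

end Pool.Agent.Run7.h637.CA
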