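import Pool.Agent.Run7.h696.CA.Iface
import Pool.Agent.Run7.h160.CP.HLS

/-!
# Project CA (helper696), piece PLWH (helper637): the system of the hyperlogarithms, all entries

Adapted from `Run7/h586/HP/PLW.lean` and `Run7/h160/CP/HLS.lean`.
-/

set_option autoImplicit false

open PowerSeries Matrix
open Pool.Agent.Y113 hiding Bm
open Pool.Agent.Y120.GF
open Pool.Agent.Y119.HZ hiding SDc_matmul
open Pool.Agent.Y120.GH hiding wd
open Pool.Agent.Y119.HY (cm E Hf Yf Vr)
open Pool.Agent.Run7.h225.HG Pool.Agent.Run7.h696.CP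
open Pool.Agent.Run7.h696.CF hiding HH
open Pool.Agent.Y119.ML (In const_In geo geo_mul)
open Pool.Agent.Run7.h696.CA
open Pool.Agent.Run7.h160.CP

namespace Pool.Agent.Run7.h637.CA

/-- the holomorphic part of the fundamental matrix -/
noncomputable def HM {m : ℕ} (a : Fin m → ℤ) (W : ℕ) :
    Matrix (Fin (Fintype.card (WW m W))) (Fin (Fintype.card (WW m W))) ℚ⟦X⟧ :=
  Matrix.of fun i j => HH a (wd i) (wd j)

/-- the proof of `p_HLS`, with the matrix -/
theorem sysW {m : ℕ} (a : Fin m → ℤ) (L : ℝ) (hL : 1 ≤ L) (hLa : ∀ i, |(a i : ℝ)| ≤ L) (W : ℕ) :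
    ∃ (N : Matrix (Fin (Fintype.card (WW m W))) (Fin (Fintype.card (WW m W))) ℚ)
      (V : Matrix (Fin (Fintype.card (WW m W))) (Fin (Fintype.card (WW m W))) ℚ⟦X⟧),
      SysL L (Fintype.card (WW m W)) N (HM a W) V := by
  classical
  set d := Fintype.card (WW m W) with hd
  let N : Matrix (Fin d) (Fin d) ℚ := Matrix.of fun i j => if wd i = none :: wd j then 1 else 0
  let H : Matrix (Fin d) (Fin d) ℚ⟦X⟧ := HM a W
  let V : Matrix (Fin d) (Fin d) ℚ⟦X⟧ := ∑ i ∈ Finset.range (W + 1), (1 - H) ^ i
  have hN : ∀ i j, (wd i).length ≤ (wd j).length → N i j = 0 := by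
    intro i j h
    show (if wd i = none :: wd j then (1 : ℚ) else 0) = 0
    rw [if_neg]
    intro h1
    rw [h1, List.length_cons] at h
    omega
  have hH : ∀ i j, (wd i).length ≤ (wd j).length → (1 - H) i j = 0 := by
    intro i j h
    rw [Matrix.sub_apply]
    show _ - HH a (wd i) (wd j) = 0
    by_cases hij : i = j
    · subst hij
      rw [Matrix.one_apply_eq]
      have := HH_app a [] (wd i)
      rw [List.nil_append] at this
      rw [this, hw_nil, sub_self]
    · rw [Matrix.one_apply_ne hij, HH_not, sub_zero]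
      intro h1
      exact hij (wd_inj (h1.eq_of_length_le h).symm)
  have hNp := nilp' (fun i => (wd i).length) N W wd_len hN
  have hHp := nilp' (fun i => (wd i).length) (1 - H) W wd_len hH
  have hdW : W + 1 ≤ d := by
    have h1 : Function.Injective (fun k : Fin (W + 1) =>
        (⟨List.replicate k.val none, by rw [List.length_replicate]; omega⟩ : WW m W)) := by
      intro k k' h
      have h2 := congrArg (fun w : WW m W => w.1.length) h
      simp only [List.length_replicate] at h2
      exact Fin.ext h2
    simpa using Fintype.card_le_of_injective _ h1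
  have hzero : ∀ i j, coeff 0 (H i j) = if i = j then 1 else 0 := by
    intro i j
    show coeff 0 (HH a (wd i) (wd j)) = _
    by_cases hij : i = j
    · subst hij
      have := HH_app a [] (wd i)
      rw [List.nil_append] at this
      rw [this, hw_nil, if_pos rfl]
      simp
    · rw [if_neg hij]
      by_cases h : wd j <:+ wd i
      · obtain ⟨w, hw⟩ := h
        rw [← hw, HH_app]
        refine cc_hw a w ?_
        rintro rfl
        rw [List.nil_append] at hw
        exact hij (wd_inj hw).symm
      · rw [HH_not a h, map_zero]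
  -- the differential equation
  have hth : ∀ u v, X * d⁄dX ℚ (HH a u v) = TL a u v - HH a u (none :: v) := by
    intro u v
    ext k
    rw [map_sub, ← main]
    cases k with
    | zero => simp
    | succ k =>
      rw [coeff_succ_X_mul, coeff_derivative]
      push_cast
      ring
  have hHN : ∀ i j, ∑ k, H i k * C (N k j) = HH a (wd i) (none :: wd j) := by
    intro i j
    have h1 := sum_wd (W := W) (fun w => HH a (wd i) w) (none :: wd j) (fun h =>
      HH_len a (lt_of_le_of_lt (wd_len i) h))
    rw [← h1]
    refine Finset.sum_congr rfl fun x _ => ?_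
    show HH a (wd i) (wd x) * C (if wd x = none :: wd j then (1 : ℚ) else 0) = _
    split_ifs
    · rw [map_one, mul_one]
    · rw [map_zero, mul_zero]
  let T : Polynomial ℤ := ∏ j, qa a j
  let A : Fin d → Fin d → Polynomial ℤ := fun i k => (if wd i = none :: wd k then T else 0) +
    ∑ s, (if wd i = some s :: wd k then Polynomial.X * ∏ j ∈ Finset.univ.erase s, qa a j else 0)
  have hps0 : ps 0 = 0 := by
    unfold ps
    rw [Polynomial.map_zero, Polynomial.coe_zero]
  have hTL : ∀ i j, ps T * TL a (wd i) (wd j) = ∑ k, ps (A i k) * H k j := by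
    intro i j
    have hA : ∀ k, ps (A i k) = (if wd i = none :: wd k then ps T else 0) +
        ∑ s, (if wd i = some s :: wd k then ps T * GG a s else 0) := by
      intro k
      have e1 : ∀ p q : Polynomial ℤ, ps (p + q) = ps p + ps q := by
        intro p q
        unfold ps
        rw [Polynomial.map_add, Polynomial.coe_add]
      have e2 : ∀ f : Fin m → Polynomial ℤ, ps (∑ s, f s) = ∑ s, ps (f s) := by
        intro f
        unfold ps
        rw [Polynomial.map_sum]
        exact map_sum (Polynomial.coeToPowerSeries.ringHom (R := ℚ)) (fun s => (f s).map (Int.castRingHom ℚ))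
          Finset.univ
      show ps ((if wd i = none :: wd k then T else 0) +
        ∑ s, (if wd i = some s :: wd k then Polynomial.X * ∏ j ∈ Finset.univ.erase s, qa a j else 0)) = _
      rw [e1, e2]
      congr 1
      · split_ifs
        · rfl
        · exact hps0
      · refine Finset.sum_congr rfl fun s _ => ?_
        split_ifs
        · exact (ps_GG a s).symm
        · exact hps0
    simp only [hA, add_mul, Finset.sum_add_distrib]
    have hlen : ∀ u : List (Lt m), (wd i).length = u.length + 1 → u.length ≤ W := by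
      intro u hu
      have := wd_len i
      omega
    rcases hwi : wd i with _ | ⟨b, u⟩
    · rw [Finset.sum_eq_zero, Finset.sum_eq_zero]
      · show ps T * 0 = _
        rw [mul_zero, add_zero]
      · intro k _
        rw [Finset.sum_eq_zero, zero_mul]
        intro s _
        rw [if_neg (List.cons_ne_nil _ _).symm]
      · intro k _
        rw [if_neg (List.cons_ne_nil _ _).symm, zero_mul]
    · have hul : u.length ≤ W := hlen u (by rw [hwi, List.length_cons])
      have hsum := sum_wd (W := W) (fun w => ps T * HH a w (wd j)) u (fun h => by omega)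
      cases b with
      | none =>
        have h2 : ∑ k, (∑ s : Fin m, (if (none :: u : List (Lt m)) = some s :: wd k then ps T * GG a s else 0)) *
            H k j = 0 := by
          refine Finset.sum_eq_zero fun k _ => ?_
          rw [Finset.sum_eq_zero, zero_mul]
          intro s _
          rw [if_neg (fun h => by simp at h)]
        rw [h2, add_zero]
        show ps T * HH a u (wd j) = _
        rw [← hsum]
        refine Finset.sum_congr rfl fun k _ => ?_
        show _ = _ * HH a (wd k) (wd j)
        by_cases hk : wd k = u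
        · rw [if_pos hk, if_pos (by rw [hk])]
        · rw [if_neg hk, if_neg (fun h => hk (List.cons_injective h).symm), zero_mul]
      | some s₀ =>
        have h2 : ∑ k, (if (some s₀ :: u : List (Lt m)) = none :: wd k then ps T else 0) * H k j = 0 := by
          refine Finset.sum_eq_zero fun k _ => ?_
          rw [if_neg (fun h => by simp at h), zero_mul]
        rw [h2, zero_add]
        have hsum2 := sum_wd (W := W) (fun w => ps T * (GG a s₀ * HH a w (wd j))) u (fun h => by omega)
        show ps T * (GG a s₀ * HH a u (wd j)) = _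
        rw [← hsum2]
        refine Finset.sum_congr rfl fun k _ => ?_
        show _ = _ * HH a (wd k) (wd j)
        rw [Finset.sum_eq_single s₀]
        · by_cases hk : wd k = u
          · rw [if_pos hk, if_pos (by rw [hk]), mul_assoc]
          · rw [if_neg hk, if_neg (fun h => hk (List.cons_injective h).symm), zero_mul]
        · intro s _ hs
          rw [if_neg]
          intro h
          have h3 := (List.cons.inj h).1
          rw [Option.some.injEq] at h3
          exact hs h3.symm
        · intro h
          exact absurd (Finset.mem_univ _) h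
  refine ⟨N, V, ⟨?_, ?_, hzero, ?_, ?_, ?_, ?_, ?_⟩⟩
  · refine ⟨fun i j => if wd i = none :: wd j then 1 else 0, fun i j => ?_⟩
    by_cases h : wd i = none :: wd j
    · simp [N, h]
    · simp [N, h]
  · exact pow_eq_zero_of_le hdW hNp
  · refine ⟨T, A, Finset.prod_ne_zero_iff.2 fun j _ => qa_ne a j, fun i j => ?_⟩
    rw [← hTL, hHN]
    show ps T * (X * d⁄dX ℚ (HH a (wd i) (wd j)) + _) = _
    rw [hth, sub_add_cancel]
  · show H * V = 1
    have h1 := mul_neg_geom_sum (1 - H) (W + 1)
    rw [sub_sub_cancel, hHp, sub_zero] at h1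
    exact h1
  · intro i j
    exact SDc_HH a _ _
  · intro i j
    show SDc ((∑ k ∈ Finset.range (W + 1), (1 - H) ^ k) i j)
    rw [Matrix.sum_apply]
    refine SDc.sum' _ fun k hk => ?_
    clear hk
    have h1 : ∀ i j, SDc ((1 - H) i j) := by
      intro i j
      rw [Matrix.sub_apply]
      refine SDc_sub ?_ (SDc_HH a _ _)
      rw [Matrix.one_apply]
      split_ifs
      · exact SDc.one
      · exact SDc_zero
    clear hTL hHN hth hHp hNp
    induction k generalizing i j with
    | zero =>
      rw [pow_zero, Matrix.one_apply]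
      split_ifs
      · exact SDc.one
      · exact SDc_zero
    | succ k ih =>
      rw [pow_succ]
      exact SDc_matmul (fun i j => ih i j) h1 i j
  · intro t ht i j
    have ht0 : 0 < t := by linarith
    exact Cv_HH a ht0 (fun i => lt_of_le_of_lt (hLa i) ht) _ _
/-! ### the entries -/

/-- integration as a linear map -/
noncomputable def InL : ℚ⟦X⟧ →ₗ[ℚ] ℚ⟦X⟧ where
  toFun := In
  map_add' f g := by
    ext k
    simp only [In, coeff_mk, map_add, add_div]
  map_smul' c f := by
    ext k
    simp only [In, coeff_mk, map_smul, smul_eq_mul, mul_div_assoc, RingHom.id_apply]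

section entries

variable {m : ℕ} {a : Fin m → ℤ}

lemma In_hy (w : List (Option (Fin m))) : In (hy a w) = hy a (none :: w) := by
  ext k
  rw [In, coeff_mk, hy, coeff_mk, hy, coeff_mk]
  rfl

lemma In_GG_hy (i : Fin m) (w : List (Option (Fin m))) : In (GG a i * hy a w) = hy a (some i :: w) := by
  ext k
  rw [In, coeff_mk, coeff_GG]
  have h1 : coeff k (hy a (some i :: w)) =
      (∑ l ∈ Finset.range k, (a i : ℚ) ^ (k - 1 - l) * co a w l) / (k : ℚ) := by
    rw [hy, coeff_mk]
    rfl
  rw [h1]
  congr 1
  refine Finset.sum_congr rfl fun j _ => ?_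
  rw [hy, coeff_mk]

lemma hy_nil : hy a [] = 1 := by
  ext k
  rw [hy, coeff_mk, coeff_one]
  rfl

lemma hy_none : hy a [none] = 0 := by
  ext k
  rw [hy, coeff_mk, map_zero]
  show (if k = 0 then (1 : ℚ) else 0) / (k : ℚ) = 0
  split_ifs with h
  · rw [h, Nat.cast_zero, div_zero]
  · rw [zero_div]

variable (a) in
/-- the admissible words of length `n` -/
def SA (n : ℕ) : Submodule ℚ ℚ⟦X⟧ := Submodule.span ℚ (hy a '' {w | Adm w ∧ w.length = n})

lemma SA_In {n : ℕ} {f : ℚ⟦X⟧} (h : f ∈ SA a n) : In f ∈ SA a (n + 1) := by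
  have h1 : SA a n ≤ (SA a (n + 1)).comap InL := by
    unfold SA
    rw [Submodule.span_le]
    rintro _ ⟨w, ⟨hw1, hw2⟩, rfl⟩
    show In (hy a w) ∈ SA a (n + 1)
    rw [In_hy]
    by_cases h0 : w = []
    · rw [h0, hy_none]
      exact Submodule.zero_mem _
    · exact Submodule.subset_span ⟨none :: w, ⟨Adm_of_ne hw1 h0, by rw [List.length_cons, hw2]⟩, rfl⟩
  exact h1 h

lemma SA_GG (i : Fin m) {n : ℕ} {f : ℚ⟦X⟧} (h : f ∈ SA a n) : In (GG a i * f) ∈ SA a (n + 1) := by
  have h1 : SA a n ≤ (SA a (n + 1)).comap (InL ∘ₗ LinearMap.mulLeft ℚ (GG a i)) := by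
    unfold SA
    rw [Submodule.span_le]
    rintro _ ⟨w, ⟨hw1, hw2⟩, rfl⟩
    show In (GG a i * hy a w) ∈ SA a (n + 1)
    rw [In_GG_hy]
    refine Submodule.subset_span ⟨some i :: w, ⟨?_, by rw [List.length_cons, hw2]⟩, rfl⟩
    by_cases h0 : w = []
    · subst h0
      unfold Adm
      simp
    · exact Adm_of_ne hw1 h0
  exact h1 h

lemma hw_SA (n : ℕ) : ∀ w : List (Option (Fin m)), w.length = n → hw a w ∈ SA a n := by
  induction n with
  | zero =>
    intro w hw0
    rw [List.length_eq_zero_iff] at hw0
    subst hw0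
    rw [hw_nil, ← hy_nil (a := a)]
    refine Submodule.subset_span ⟨[], ⟨?_, rfl⟩, rfl⟩
    unfold Adm
    simp
  | succ n ih =>
    intro w hwn
    obtain ⟨b, u, rfl⟩ := List.exists_cons_of_ne_nil (l := w) (by rintro rfl; simp at hwn)
    rw [List.length_cons, Nat.add_right_cancel_iff] at hwn
    have h1 : In (tl a (b :: u)) ∈ SA a (n + 1) := by
      cases b
      · exact SA_In (ih u hwn)
      · exact SA_GG _ (ih u hwn)
    have h2 : In (la a (b :: u)) ∈ SA a (n + 1) := by
      apply SA_In
      unfold la
      split_ifs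
      · refine ih _ ?_
        simp [hwn]
      · exact Submodule.zero_mem _
    rw [hw_cons]
    have h3 : In (tl a (b :: u) - la a (b :: u)) = In (tl a (b :: u)) - In (la a (b :: u)) :=
      map_sub InL _ _
    rw [h3]
    exact Submodule.sub_mem _ h1 h2

lemma HH_mem (W : ℕ) (u v : List (Option (Fin m))) (hu : u.length ≤ W) :
    HH a u v ∈ Submodule.span ℚ (Set.range fun w : Wd m W => hy a w.1) := by
  unfold HH
  split_ifs
  · have h1 := hw_SA (a := a) _ (u.take (u.length - v.length)) rfl
    refine Submodule.span_mono ?_ h1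
    rintro _ ⟨w, ⟨h2, h3⟩, rfl⟩
    refine ⟨⟨w, ?_, h2⟩, rfl⟩
    rw [h3, List.length_take]
    omega
  · exact Submodule.zero_mem _

end entries

/-- **PLWH** -/
theorem p_PLWH : S_PLWH := by
  classical
  intro m a L hL hLa W
  obtain ⟨N, V, hS⟩ := sysW a L hL hLa W
  let e : Wd m W → Fin (Fintype.card (WW m W)) × Fin (Fintype.card (WW m W)) := fun w =>
    (Fintype.equivFin (WW m W) ⟨w.1, w.2.1⟩, Fintype.equivFin (WW m W) ⟨[], Nat.zero_le _⟩)
  have he1 : ∀ w, wd (e w).1 = w.1 := by
    intro w
    show ((Fintype.equivFin (WW m W)).symm (Fintype.equivFin (WW m W) ⟨w.1, w.2.1⟩)).1 = _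
    rw [Equiv.symm_apply_apply]
  have he2 : ∀ w, wd (e w).2 = [] := by
    intro w
    show ((Fintype.equivFin (WW m W)).symm (Fintype.equivFin (WW m W) ⟨[], Nat.zero_le _⟩)).1 = _
    rw [Equiv.symm_apply_apply]
  have hei : ∀ w w', e w = e w' → w = w' := by
    intro w w' h
    apply Subtype.ext
    rw [← he1 w, ← he1 w', h]
  have hex : ∀ i j, ∃ c : Wd m W → ℚ, HM a W i j = ∑ w, PowerSeries.C (c w) * hy a w.1 := by
    intro i j
    obtain ⟨c, hc⟩ := (Submodule.mem_span_range_iff_exists_fun ℚ).1
      (HH_mem W (wd i) (wd j) (wd_len i))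
    refine ⟨c, ?_⟩
    show HH a (wd i) (wd j) = _
    rw [← hc]
    exact Finset.sum_congr rfl fun w _ => PowerSeries.smul_eq_C_mul _ _
  choose c hc using hex
  let c' : Fin (Fintype.card (WW m W)) → Fin (Fintype.card (WW m W)) → Wd m W → ℚ := fun i j =>
    if h : ∃ w, e w = (i, j) then Pi.single h.choose 1 else c i j
  have hc' : ∀ w, c' (e w).1 (e w).2 = Pi.single w 1 := by
    intro w
    have h : ∃ w', e w' = ((e w).1, (e w).2) := ⟨w, rfl⟩
    show (if h : ∃ w', e w' = ((e w).1, (e w).2) then Pi.single h.choose (1 : ℚ)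
      else c (e w).1 (e w).2) = _
    rw [dif_pos h]
    congr 1
    exact hei _ _ h.choose_spec
  refine ⟨_, N, HM a W, V, c', e, hS, ?_, hc'⟩
  intro i j
  by_cases h : ∃ w, e w = (i, j)
  · obtain ⟨w, hw⟩ := h
    have h1 : i = (e w).1 := by rw [hw]
    have h2 : j = (e w).2 := by rw [hw]
    subst h1 h2
    rw [hc' w]
    have h3 : HM a W (e w).1 (e w).2 = hy a w.1 := by
      show HH a (wd (e w).1) (wd (e w).2) = _
      rw [he1, he2, ← hw_hy a w.1 w.2.2]
      have := HH_app a w.1 []
      rwa [List.append_nil] at this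
    rw [h3, Finset.sum_eq_single w]
    · rw [Pi.single_eq_same, map_one, one_mul]
    · intro w' _ hne
      rw [Pi.single_eq_of_ne hne, map_zero, zero_mul]
    · intro hn
      exact absurd (Finset.mem_univ _) hn
  · show _ = ∑ w, PowerSeries.C ((if h : ∃ w, e w = (i, j) then Pi.single h.choose (1 : ℚ)
      else c i j) w) * hy a w.1
    rw [dif_neg h]
    exact hc i j

end Pool.Agent.Run7.h637.CA
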